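import Pool.Agent.KS6_98.SmuFinal
import Pool.Agent.KS6_98.SmuMLE

/-!
# The Hellinger rate `n^{-1/3} (log n)^γ` fails for scale mixtures of uniforms in dimension three

The answer to Q1 of MP_faec4e_pr is negative.  In dimension `3` no estimator whatsoever (in
particular not the maximum likelihood estimator) has Hellinger rate `o(n^{-3/10})` at every bounded,
compactly supported scale mixture of uniforms, and `n^{-1/3} (log n)^γ = o(n^{-3/10})`.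

Idea: put atoms of the mixing measure at the vertices of `m^2` pairs of cubes of side `~ 1/m`
along an antichain `x + y + z = const`.  The cubes do not dominate each other, so the density on each
cube can be switched on and off independently, with amplitude `~ m^{-2}`: a cube carries mass
`~ m^{-5}`, and with `n ~ m^5` observations about `m^2` independent coin flips stay undecided, which
costs squared Hellinger distance `m^2 m^{-5} = n^{-3/5}`.  Infinitely many scales are put into one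
density.
-/

set_option autoImplicit false

open MeasureTheory Set Filter Topology
open scoped ENNReal

namespace Pool.Agent.Results.MP_faec4e_pr.NoCubeRootRate

/-- `f_G(x) = ∫ |y|^{-1} 1_{(0,y]}(x) dG(y)` -/
noncomputable def mix {d : ℕ} (G : Measure (Fin d → ℝ)) (x : Fin d → ℝ) : ℝ :=
  ∫ y, (if ∀ i, 0 < x i ∧ x i ≤ y i then (∏ i, y i)⁻¹ else 0) ∂G

/-- The class `F_SMU(d)`: the densities `f_G`, `G` a probability distribution on `(0,∞)^d`. -/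
def SMU (d : ℕ) : Set ((Fin d → ℝ) → ℝ) :=
  {f | ∃ G : Measure (Fin d → ℝ), IsProbabilityMeasure G ∧ G {y | ∀ i, 0 < y i}ᶜ = 0 ∧ f = mix G}

/-- The law of `n` i.i.d. observations with density `f`. -/
noncomputable def sample {d : ℕ} (n : ℕ) (f : (Fin d → ℝ) → ℝ) : Measure (Fin n → Fin d → ℝ) :=
  Measure.pi (fun _ => volume.withDensity (fun z => ENNReal.ofReal (f z)))

/-- Hellinger distance, `h(f,g)^2 = (1/2) ∫ (√f - √g)^2`. -/
noncomputable def hell {d : ℕ} (f g : (Fin d → ℝ) → ℝ) : ℝ≥0∞ :=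
  (2⁻¹ * ∫⁻ z, ENNReal.ofReal ((√(f z) - √(g z)) ^ 2)) ^ (1 / 2 : ℝ)

/-- `T` is a maximum likelihood estimator over `F_SMU(d)`: for every sample `X`, `T n X` maximises
`f ↦ ∏ f(X_i)` over the class. -/
def IsMLE {d : ℕ} (T : ∀ n : ℕ, (Fin n → Fin d → ℝ) → (Fin d → ℝ) → ℝ) : Prop :=
  ∀ (n : ℕ) (X : Fin n → Fin d → ℝ), T n X ∈ SMU d ∧ ∀ g ∈ SMU d, ∏ i, g (X i) ≤ ∏ i, T n X (X i)

/-- `h(T_n, f₀) = O_p(a_n)` under sampling from `f₀`. -/
def BigOp {d : ℕ} (T : ∀ n : ℕ, (Fin n → Fin d → ℝ) → (Fin d → ℝ) → ℝ) (f0 : (Fin d → ℝ) → ℝ)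
    (a : ℕ → ℝ) : Prop :=
  ∀ ε : ℝ, 0 < ε → ∃ (C : ℝ) (N : ℕ), ∀ n, N ≤ n →
    sample n f0 {X | ENNReal.ofReal (C * a n) < hell (T n X) f0} < ENNReal.ofReal ε

/-- The claim of Q1 in dimension `d`: for some real `γ`, every maximum likelihood estimator is
`O_p(n^{-1/3} (log n)^γ)` in Hellinger distance at every bounded `f₀ ∈ F_SMU(d)` that vanishes
outside some cube `[0,M]^d`. -/
def RateClaim (d : ℕ) : Prop :=
  ∃ γ : ℝ, ∀ T : (∀ n : ℕ, (Fin n → Fin d → ℝ) → (Fin d → ℝ) → ℝ), IsMLE T →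
    ∀ f0 ∈ SMU d, (∃ B : ℝ, ∀ x, f0 x ≤ B) → (∃ M : ℝ, 0 < M ∧ ∀ x, (∃ i, M < x i) → f0 x = 0) →
      BigOp T f0 (fun n => (n : ℝ) ^ (-(1 / 3) : ℝ) * (Real.log n) ^ γ)

theorem measurable_of_mem {d : ℕ} {f : (Fin d → ℝ) → ℝ} (hf : f ∈ SMU d) : Measurable f := by
  obtain ⟨G, hG, -, rfl⟩ := hf
  exact Pool.Agent.KS6_98.SMU.measurable_smu G

theorem rate_tendsto (γ : ℝ) : Tendsto (fun n : ℕ =>
    ((n : ℝ) ^ (-(1 / 3) : ℝ) * (Real.log n) ^ γ) * (n : ℝ) ^ (3 / 10 : ℝ)) atTop (𝓝 0) := by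
  have h1 : Tendsto (fun x : ℝ => (Real.log x) ^ γ / x ^ (1 / 30 : ℝ)) atTop (𝓝 0) :=
    (isLittleO_log_rpow_rpow_atTop γ (by norm_num : (0 : ℝ) < 1 / 30)).tendsto_div_nhds_zero
  have h2 := h1.comp tendsto_natCast_atTop_atTop
  refine h2.congr' ?_
  filter_upwards [eventually_ge_atTop 1] with n hn
  have hn' : (0 : ℝ) < n := by exact_mod_cast hn
  simp only [Function.comp]
  rw [div_eq_mul_inv, ← Real.rpow_neg hn'.le]
  calc (Real.log n) ^ γ * (n : ℝ) ^ (-(1 / 30) : ℝ)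
      = (Real.log n) ^ γ * ((n : ℝ) ^ (-(1 / 3) : ℝ) * (n : ℝ) ^ (3 / 10 : ℝ)) := by
        rw [← Real.rpow_add hn']
        norm_num
    _ = _ := by ring

theorem lower_bound (T : ∀ n : ℕ, (Fin n → Fin 3 → ℝ) → (Fin 3 → ℝ) → ℝ)
    (hT : ∀ n X, Measurable (T n X)) (ρ : ℕ → ℝ)
    (hρ : Tendsto (fun n : ℕ => ρ n * (n : ℝ) ^ (3 / 10 : ℝ)) atTop (𝓝 0)) :
    ∃ f0 ∈ SMU 3, (∀ x, f0 x ≤ 3) ∧ (∀ x, (∃ i, 1 < x i) → f0 x = 0) ∧
      ∀ (K : ℝ) (N : ℕ), ∃ n, N ≤ n ∧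
        (1 / 2 : ℝ≥0∞) ≤ sample n f0 {X | ENNReal.ofReal (K * ρ n) < hell (T n X) f0} := by
  obtain ⟨G, h1, h2, h3, h4, h5⟩ := Pool.Agent.KS6_98.SMU.main T hT ρ hρ
  exact ⟨mix G, ⟨G, h1, h2, rfl⟩, h3, fun x ⟨i, hi⟩ => h4 x i hi, h5⟩

theorem exists_isMLE (d : ℕ) :
    ∃ T : (∀ n : ℕ, (Fin n → Fin d → ℝ) → (Fin d → ℝ) → ℝ), IsMLE T := by
  have h : ∀ (n : ℕ) (X : Fin n → Fin d → ℝ), ∃ f : (Fin d → ℝ) → ℝ, f ∈ SMU d ∧
      ∀ g ∈ SMU d, ∏ i, g (X i) ≤ ∏ i, f (X i) := by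
    intro n X
    obtain ⟨G, hG1, hG2, hG3⟩ := Pool.Agent.KS6_98.SMU.exists_mle X
    refine ⟨mix G, ⟨G, hG1, hG2, rfl⟩, ?_⟩
    rintro g ⟨G', hG'1, hG'2, rfl⟩
    exact hG3 G' hG'1 hG'2
  choose T hT using h
  exact ⟨T, hT⟩

/-- **Q1 is false.**  The claimed rate fails in dimension three.  Quantitatively: for every sequence
of estimators `T` of a density on `(0,∞)^3` (in particular for the maximum likelihood estimator) and
every `ρ_n = o(n^{-3/10})` there is a single `f₀ ∈ F_SMU(3)`, bounded by `3` and vanishing outside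
`[0,1]^3`, such that for every `K` the event `h(T_n, f₀) > K ρ_n` has probability at least `1/2` for
infinitely many `n`. -/
theorem result :
    (¬ ∀ d : ℕ, 1 ≤ d → RateClaim d) ∧
    ∀ T : (∀ n : ℕ, (Fin n → Fin 3 → ℝ) → (Fin 3 → ℝ) → ℝ), (∀ n X, Measurable (T n X)) →
      ∀ ρ : ℕ → ℝ, Tendsto (fun n : ℕ => ρ n * (n : ℝ) ^ (3 / 10 : ℝ)) atTop (𝓝 0) →
        ∃ f0 ∈ SMU 3, (∀ x, f0 x ≤ 3) ∧ (∀ x, (∃ i, 1 < x i) → f0 x = 0) ∧
          ∀ (K : ℝ) (N : ℕ), ∃ n, N ≤ n ∧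
            (1 / 2 : ℝ≥0∞) ≤ sample n f0 {X | ENNReal.ofReal (K * ρ n) < hell (T n X) f0} := by
  refine ⟨?_, lower_bound⟩
  intro hall
  obtain ⟨γ, hγ⟩ := hall 3 (by norm_num)
  obtain ⟨T, hT⟩ := exists_isMLE 3
  obtain ⟨f0, hf0, hB, hM, hbad⟩ := lower_bound T (fun n X => measurable_of_mem (hT n X).1)
    (fun n => (n : ℝ) ^ (-(1 / 3) : ℝ) * (Real.log n) ^ γ) (rate_tendsto γ)
  obtain ⟨C, N, hCN⟩ := hγ T hT f0 hf0 ⟨3, hB⟩ ⟨1, one_pos, hM⟩ (1 / 2) (by norm_num)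
  obtain ⟨n, hn, hge⟩ := hbad C N
  have hlt := hCN n hn
  have e : (1 / 2 : ℝ≥0∞) = ENNReal.ofReal (1 / 2) := by
    rw [ENNReal.ofReal_div_of_pos (by norm_num)]; simp
  rw [← e] at hlt
  exact absurd hge (not_le.mpr hlt)

end Pool.Agent.Results.MP_faec4e_pr.NoCubeRootRate
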